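import Mathlib

set_option autoImplicit false

open Set Topology

namespace Pool.Agent.Y444.WA

universe u v w a b

/-- `X` is weakly Lindelöf: every open cover has a countable subfamily with dense union. -/
def WeaklyLindelof (X : Type u) [TopologicalSpace X] : Prop :=
  ∀ 𝒰 : Set (Set X), (∀ U ∈ 𝒰, IsOpen U) → ⋃₀ 𝒰 = univ →
    ∃ 𝒱 : Set (Set X), 𝒱 ⊆ 𝒰 ∧ 𝒱.Countable ∧ Dense (⋃₀ 𝒱)

/-- `X` is productively weakly Lindelöf: `X × Y` is weakly Lindelöf for every weakly Lindelöf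
space `Y`. -/
def ProductivelyWeaklyLindelof (X : Type u) [TopologicalSpace X] : Prop :=
  ∀ (Y : Type v) [TopologicalSpace Y], WeaklyLindelof Y → WeaklyLindelof (X × Y)

/-- `X` is weakly Alster: every family of `Gδ` sets, not having `X` as a member, such that every
compact set lies in a member, has a countable subfamily with dense union. -/
def WeaklyAlster (X : Type u) [TopologicalSpace X] : Prop :=
  ∀ 𝒰 : Set (Set X), (∀ U ∈ 𝒰, IsGδ U) → univ ∉ 𝒰 →
    (∀ K : Set X, IsCompact K → ∃ U ∈ 𝒰, K ⊆ U) →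
    ∃ 𝒱 : Set (Set X), 𝒱 ⊆ 𝒰 ∧ 𝒱.Countable ∧ Dense (⋃₀ 𝒱)

/-- `X` has countable `π`-weight: there is a countable family of nonempty open sets such that
every nonempty open set contains a member of it. -/
def CountablePiBase (X : Type u) [TopologicalSpace X] : Prop :=
  ∃ ℬ : Set (Set X), ℬ.Countable ∧ (∀ B ∈ ℬ, IsOpen B ∧ B.Nonempty) ∧
    ∀ U : Set X, IsOpen U → U.Nonempty → ∃ B ∈ ℬ, B ⊆ U

/-- The selection property behind everything. -/
def PP (X : Type u) [TopologicalSpace X] : Prop :=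
  ∀ U : X → ℕ → Set X, (∀ x n, IsOpen (U x n)) → (∀ x n, x ∈ U x n) →
    ∃ C : Set X, C.Countable ∧ ∀ f : X → ℕ, Dense (⋃ x ∈ C, U x (f x))

theorem productively_of_PP {X : Type u} [TopologicalSpace X] (h : PP X) :
    ProductivelyWeaklyLindelof.{u, v} X := by
  classical
  intro Y _ hY 𝒰 hop hcov
  by_cases hYe : IsEmpty Y
  · refine ⟨∅, empty_subset _, countable_empty, ?_⟩
    intro p
    exact (hYe.false p.2).elim
  rw [not_isEmpty_iff] at hYe
  -- for each `x`, a sequence of boxes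
  have h1 : ∀ x : X, ∃ (U : ℕ → Set X) (V : ℕ → Set Y) (W : ℕ → Set (X × Y)),
      (∀ n, IsOpen (U n)) ∧ (∀ n, x ∈ U n) ∧ (∀ n, W n ∈ 𝒰) ∧ (∀ n, U n ×ˢ V n ⊆ W n) ∧
      ∀ O : Set Y, IsOpen O → O.Nonempty → ∃ n, (V n ∩ O).Nonempty := by
    intro x
    let 𝒪 : Set (Set Y) := {V | IsOpen V ∧ ∃ W ∈ 𝒰, ∃ G : Set X, IsOpen G ∧ x ∈ G ∧ G ×ˢ V ⊆ W}
    have h2 : ⋃₀ 𝒪 = univ := by
      rw [sUnion_eq_univ_iff]
      intro y
      have : (x, y) ∈ ⋃₀ 𝒰 := by rw [hcov]; trivial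
      obtain ⟨W, hW, hmem⟩ := this
      obtain ⟨G, V, hG, hV, haG, hyV, hsub⟩ := isOpen_prod_iff.mp (hop W hW) x y hmem
      exact ⟨V, ⟨hV, W, hW, G, hG, haG, hsub⟩, hyV⟩
    obtain ⟨𝒱, hsub, hcount, hdense⟩ := hY 𝒪 (fun V hV => hV.1) h2
    have hne : 𝒱.Nonempty := by
      obtain ⟨y, -, V, hV, -⟩ := hdense.inter_open_nonempty univ isOpen_univ univ_nonempty
      exact ⟨V, hV⟩
    obtain ⟨V, hV⟩ := hcount.exists_eq_range hne
    have hV' : ∀ n, V n ∈ 𝒪 := fun n => hsub (hV ▸ mem_range_self n)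
    choose _ W hW G hG hxG hGV using hV'
    refine ⟨G, V, W, hG, hxG, hW, hGV, ?_⟩
    intro O hO hOne
    obtain ⟨y, hyO, V', hV'', hy⟩ := hdense.inter_open_nonempty O hO hOne
    rw [hV] at hV''
    obtain ⟨n, rfl⟩ := hV''
    exact ⟨n, y, hy, hyO⟩
  choose U V W hU hxU hW hUV hV using h1
  obtain ⟨C, hC, hd⟩ := h U hU hxU
  refine ⟨⋃ x ∈ C, range (W x), ?_, hC.biUnion fun x _ => countable_range _, ?_⟩
  · refine iUnion₂_subset fun x _ => ?_
    rintro _ ⟨n, rfl⟩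
    exact hW x n
  rw [dense_iff_inter_open]
  intro O hO ⟨p, hp⟩
  obtain ⟨G, V', hG, hV', hpG, hpV, hsub⟩ := isOpen_prod_iff.mp hO p.1 p.2 hp
  choose f hf using fun x => hV x V' hV' ⟨p.2, hpV⟩
  obtain ⟨x', hx'G, hx'⟩ := (hd f).inter_open_nonempty G hG ⟨p.1, hpG⟩
  simp only [mem_iUnion] at hx'
  obtain ⟨x, hxC, hx'⟩ := hx'
  obtain ⟨y, hyV, hyV'⟩ := hf x
  refine ⟨(x', y), hsub ⟨hx'G, hyV'⟩, W x (f x), ?_, hUV x (f x) ⟨hx', hyV⟩⟩
  simp only [mem_iUnion]
  exact ⟨x, hxC, f x, rfl⟩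

/-- Closing off. -/
theorem closing_off {ι : Type a} (S : Finset (ι × ℕ) → Set ι) (hS : ∀ t, (S t).Countable) :
    ∃ R : Set ι, R.Countable ∧ ∀ t : Finset (ι × ℕ), (∀ p ∈ t, p.1 ∈ R) → S t ⊆ R := by
  classical
  let step : Set ι → Set ι := fun R => R ∪ ⋃ t ∈ {t : Finset (ι × ℕ) | ∀ p ∈ t, p.1 ∈ R}, S t
  let R : ℕ → Set ι := fun n => step^[n] ∅
  have hR1 : ∀ n, R (n + 1) = step (R n) := fun n => Function.iterate_succ_apply' _ _ _
  have hc : ∀ n, (R n).Countable := by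
    intro n
    induction n with
    | zero => exact countable_empty
    | succ n ih =>
      rw [hR1]
      refine ih.union (Set.Countable.biUnion ?_ fun t _ => hS t)
      have h1 : (R n ×ˢ (univ : Set ℕ)).Countable := ih.prod (to_countable _)
      have h2 := Set.countable_ofPred_finite_subset h1
      refine (h2.preimage (f := fun t : Finset (ι × ℕ) => (t : Set (ι × ℕ)))
        Finset.coe_injective).mono ?_
      intro t ht
      exact ⟨t.finite_toSet, fun p hp => ⟨ht p (by exact_mod_cast hp), trivial⟩⟩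
  have hmono : Monotone R := by
    refine monotone_nat_of_le_succ fun n => ?_
    rw [hR1]
    exact subset_union_left
  refine ⟨⋃ n, R n, countable_iUnion hc, ?_⟩
  intro t ht
  have h3 : ∃ n, ∀ p ∈ t, p.1 ∈ R n := by
    induction t using Finset.induction_on with
    | empty => exact ⟨0, fun p hp => absurd hp (Finset.notMem_empty _)⟩
    | insert q t hq ih =>
      obtain ⟨n, hn⟩ := ih fun p hp => ht p (Finset.mem_insert_of_mem hp)
      obtain ⟨m, hm⟩ := mem_iUnion.mp (ht q (Finset.mem_insert_self _ _))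
      refine ⟨max n m, fun p hp => ?_⟩
      rcases Finset.mem_insert.mp hp with rfl | hp
      · exact hmono (le_max_right _ _) hm
      · exact hmono (le_max_left _ _) (hn p hp)
  obtain ⟨n, hn⟩ := h3
  refine Subset.trans ?_ (subset_iUnion R (n + 1))
  rw [hR1]
  refine Subset.trans ?_ subset_union_right
  exact subset_biUnion_of_mem (u := S) (show t ∈ {t : Finset (ι × ℕ) | ∀ p ∈ t, p.1 ∈ R n} from hn)

/-- A space which has a dense embedding into a product of spaces of countable `π`-weight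
has the selection property. -/
theorem PP_of_denseRange {ι : Type a} {Z : ι → Type b} [∀ i, TopologicalSpace (Z i)]
    (hZ : ∀ i, CountablePiBase (Z i)) {X : Type u} [TopologicalSpace X] (e : X → ∀ i, Z i)
    (he : IsInducing e) (hd : DenseRange e) : PP X := by
  classical
  by_cases hX : IsEmpty X
  · intro U _ _
    exact ⟨∅, countable_empty, fun f x => (hX.false x).elim⟩
  rw [not_isEmpty_iff] at hX
  obtain ⟨x₀⟩ := hX
  have hB : ∀ i, ∃ B : ℕ → Set (Z i), (∀ n, IsOpen (B n) ∧ (B n).Nonempty) ∧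
      ∀ U : Set (Z i), IsOpen U → U.Nonempty → ∃ n, B n ⊆ U := by
    intro i
    obtain ⟨ℬ, hc, h1, h2⟩ := hZ i
    have hne : ℬ.Nonempty := by
      obtain ⟨B, hB, -⟩ := h2 univ isOpen_univ ⟨e x₀ i, trivial⟩
      exact ⟨B, hB⟩
    obtain ⟨B, rfl⟩ := hc.exists_eq_range hne
    refine ⟨B, fun n => h1 _ (mem_range_self n), fun U hU hUne => ?_⟩
    obtain ⟨_, ⟨n, rfl⟩, hn⟩ := h2 U hU hUne
    exact ⟨n, hn⟩
  choose B hB1 hB2 using hB
  intro U hU hxU
  -- supports
  have hF : ∀ x n, ∃ (F : Finset ι) (w : ∀ i, Set (Z i)), (∀ i, IsOpen (w i)) ∧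
      (∀ i ∈ F, e x i ∈ w i) ∧ ∀ x' : X, (∀ i ∈ F, e x' i ∈ w i) → x' ∈ U x n := by
    intro x n
    obtain ⟨O, hO, hOU⟩ := he.isOpen_iff.mp (hU x n)
    have hxO : e x ∈ O := by
      have : x ∈ e ⁻¹' O := by rw [hOU]; exact hxU x n
      exact this
    obtain ⟨F, w, hw, hsub⟩ := isOpen_pi_iff.mp hO (e x) hxO
    refine ⟨F, fun i => if i ∈ F then w i else univ, ?_, ?_, ?_⟩
    · intro i
      by_cases hi : i ∈ F
      · simp only [hi, if_true]; exact (hw i hi).1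
      · simp only [hi, if_false]; exact isOpen_univ
    · intro i hi
      simp only [hi, if_true]; exact (hw i hi).2
    · intro x' hx'
      have h3 : e x' ∈ O := by
        apply hsub
        intro i hi
        have hi' : i ∈ F := by exact_mod_cast hi
        have := hx' i hi'
        simpa only [hi', if_true] using this
      have : x' ∈ e ⁻¹' O := h3
      rwa [hOU] at this
  choose F w hw1 hw2 hw3 using hF
  let c : Finset (ι × ℕ) → X := fun t =>
    if h : ∃ x, ∀ p ∈ t, e x p.1 ∈ B p.1 p.2 then h.choose else x₀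
  have hcspec : ∀ t, (∃ x, ∀ p ∈ t, e x p.1 ∈ B p.1 p.2) → ∀ p ∈ t, e (c t) p.1 ∈ B p.1 p.2 := by
    intro t h
    simp only [c, dif_pos h]
    exact h.choose_spec
  obtain ⟨R, hRc, hR⟩ := closing_off (fun t => ⋃ n, (F (c t) n : Set ι))
    (fun t => countable_iUnion fun n => (F (c t) n).countable_toSet)
  have hTc : {t : Finset (ι × ℕ) | ∀ p ∈ t, p.1 ∈ R}.Countable := by
    have h1 : (R ×ˢ (univ : Set ℕ)).Countable := hRc.prod (to_countable _)
    have h2 := Set.countable_ofPred_finite_subset h1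
    refine (h2.preimage (f := fun t : Finset (ι × ℕ) => (t : Set (ι × ℕ)))
      Finset.coe_injective).mono ?_
    intro t ht
    exact ⟨t.finite_toSet, fun p hp => ⟨ht p (by exact_mod_cast hp), trivial⟩⟩
  refine ⟨c '' {t | ∀ p ∈ t, p.1 ∈ R}, hTc.image c, ?_⟩
  intro f
  rw [dense_iff_inter_open]
  intro O hO ⟨y₀, hy₀⟩
  obtain ⟨O', hO', rfl⟩ := he.isOpen_iff.mp hO
  obtain ⟨T, v, hv, hsub⟩ := isOpen_pi_iff.mp hO' (e y₀) hy₀
  have hn : ∀ i, ∃ n, i ∈ T → B i n ⊆ v i := by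
    intro i
    by_cases hi : i ∈ T
    · obtain ⟨n, hn⟩ := hB2 i (v i) (hv i hi).1 ⟨_, (hv i hi).2⟩
      exact ⟨n, fun _ => hn⟩
    · exact ⟨0, fun h => absurd h hi⟩
  choose n hn using hn
  let t : Finset (ι × ℕ) := (T.filter (· ∈ R)).image fun i => (i, n i)
  have htR : ∀ p ∈ t, p.1 ∈ R := by
    intro p hp
    simp only [t, Finset.mem_image, Finset.mem_filter] at hp
    obtain ⟨i, ⟨-, hi⟩, rfl⟩ := hp
    exact hi
  -- the box of `t` is met by `X`
  have hbox : ∃ x, ∀ p ∈ t, e x p.1 ∈ B p.1 p.2 := by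
    have hop : IsOpen {z : ∀ i, Z i | ∀ p ∈ t, z p.1 ∈ B p.1 p.2} := by
      have : {z : ∀ i, Z i | ∀ p ∈ t, z p.1 ∈ B p.1 p.2} =
          ⋂ p ∈ t, (fun z : ∀ i, Z i => z p.1) ⁻¹' (B p.1 p.2) := by
        ext z; simp
      rw [this]
      exact isOpen_biInter_finset fun p _ => (hB1 p.1 p.2).1.preimage (continuous_apply _)
    obtain ⟨z, hz⟩ : {z : ∀ i, Z i | ∀ p ∈ t, z p.1 ∈ B p.1 p.2}.Nonempty := by
      refine ⟨fun i => (hB1 i (n i)).2.some, ?_⟩
      intro p hp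
      simp only [t, Finset.mem_image, Finset.mem_filter] at hp
      obtain ⟨i, -, rfl⟩ := hp
      exact (hB1 i (n i)).2.some_mem
    obtain ⟨_, hz', x, rfl⟩ := hd.inter_open_nonempty _ hop ⟨z, hz⟩
    exact ⟨x, hz'⟩
  set x := c t with hx
  have hxt : ∀ p ∈ t, e x p.1 ∈ B p.1 p.2 := hcspec t hbox
  have hFR : ∀ i ∈ F x (f x), i ∈ R := fun i hi =>
    hR t htR (mem_iUnion.mpr ⟨f x, by exact_mod_cast hi⟩)
  -- the open set of the product
  let Q : Set (∀ i, Z i) := {z | (∀ i ∈ F x (f x), z i ∈ w x (f x) i) ∧ ∀ i ∈ T, z i ∈ B i (n i)}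
  have hQ : IsOpen Q := by
    have : Q = (⋂ i ∈ F x (f x), (fun z : ∀ i, Z i => z i) ⁻¹' (w x (f x) i)) ∩
        ⋂ i ∈ T, (fun z : ∀ i, Z i => z i) ⁻¹' (B i (n i)) := by
      ext z; simp [Q]
    rw [this]
    exact (isOpen_biInter_finset fun i _ => (hw1 x (f x) i).preimage (continuous_apply _)).inter
      (isOpen_biInter_finset fun i _ => (hB1 i (n i)).1.preimage (continuous_apply _))
  have hQne : Q.Nonempty := by
    refine ⟨fun i => if i ∈ R then e x i else (hB1 i (n i)).2.some, ?_, ?_⟩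
    · intro i hi
      have := hFR i hi
      simp only [this, if_true]
      exact hw2 x (f x) i hi
    · intro i hi
      by_cases hiR : i ∈ R
      · simp only [hiR, if_true]
        exact hxt (i, n i) (Finset.mem_image.mpr ⟨i, Finset.mem_filter.mpr ⟨hi, hiR⟩, rfl⟩)
      · simp only [hiR, if_false]
        exact (hB1 i (n i)).2.some_mem
  obtain ⟨_, hy, y, rfl⟩ := hd.inter_open_nonempty Q hQ hQne
  refine ⟨y, ?_, ?_⟩
  · apply hsub
    intro i hi
    have hi' : i ∈ T := by exact_mod_cast hi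
    exact hn i hi' (hy.2 i hi')
  · simp only [mem_iUnion]
    exact ⟨x, ⟨t, htR, rfl⟩, hw3 x (f x) y hy.1⟩

end Pool.Agent.Y444.WA
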