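import Pool.Agent.Y444.WA.A

set_option autoImplicit false

open Set Topology TopologicalSpace

namespace Pool.Agent.Y444.WA

universe u v w a b

/-- A continuous image of a weakly Alster space is weakly Alster. -/
theorem WeaklyAlster.image {X : Type u} {X' : Type v} [TopologicalSpace X] [TopologicalSpace X']
    (h : WeaklyAlster X) (f : X → X') (hf : Continuous f) (hs : Function.Surjective f) :
    WeaklyAlster X' := by
  intro 𝒰 hG hu hK
  obtain ⟨𝒱, hsub, hc, hd⟩ := h {U | ∃ U' ∈ 𝒰, U = f ⁻¹' U'}
    (by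
      rintro _ ⟨U', hU', rfl⟩
      exact (hG U' hU').preimage hf)
    (by
      rintro ⟨U', hU', h⟩
      apply hu
      have : U' = univ := by
        rw [eq_univ_iff_forall]
        intro y
        obtain ⟨x, rfl⟩ := hs y
        have : x ∈ f ⁻¹' U' := by rw [← h]; trivial
        exact this
      rwa [this] at hU')
    (fun K hKc => by
      obtain ⟨U', hU', hKU⟩ := hK (f '' K) (hKc.image hf)
      exact ⟨_, ⟨U', hU', rfl⟩, image_subset_iff.mp hKU⟩)
  have h1 : ∀ U : Set X, ∃ U' : Set X', U ∈ 𝒱 → U' ∈ 𝒰 ∧ U = f ⁻¹' U' := by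
    intro U
    by_cases hU : U ∈ 𝒱
    · obtain ⟨U', hU', h⟩ := hsub hU
      exact ⟨U', fun _ => ⟨hU', h⟩⟩
    · exact ⟨∅, fun h => absurd h hU⟩
  choose g hg using h1
  refine ⟨g '' 𝒱, ?_, hc.image g, ?_⟩
  · rintro _ ⟨U, hU, rfl⟩
    exact (hg U hU).1
  · rw [dense_iff_inter_open]
    intro O hO ⟨y, hy⟩
    obtain ⟨x, rfl⟩ := hs y
    obtain ⟨x', hx', U, hU, hxU⟩ := hd.inter_open_nonempty (f ⁻¹' O) (hO.preimage hf) ⟨x, hy⟩
    refine ⟨f x', hx', g U, ⟨U, hU, rfl⟩, ?_⟩
    rw [(hg U hU).2] at hxU
    exact hxU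

/-- Separable spaces are weakly Alster. -/
theorem weaklyAlster_of_separable {X : Type u} [TopologicalSpace X] [SeparableSpace X] :
    WeaklyAlster X := by
  intro 𝒰 _ _ hK
  obtain ⟨D, hDc, hD⟩ := exists_countable_dense X
  choose U hU hxU using fun x : X => hK {x} isCompact_singleton
  refine ⟨U '' D, ?_, hDc.image U, ?_⟩
  · rintro _ ⟨x, -, rfl⟩
    exact hU x
  · exact hD.mono fun x hx => ⟨U x, ⟨x, hx, rfl⟩, hxU x rfl⟩

/-- A weakly Alster space with a continuous injection into a second countable metrizable space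
is separable. -/
theorem separable_of_weaklyAlster {X : Type u} {Z : Type v} [TopologicalSpace X]
    [TopologicalSpace Z] [MetrizableSpace Z] [SecondCountableTopology Z]
    (h : WeaklyAlster X) (f : X → Z) (hf : Continuous f) (hi : Function.Injective f) :
    SeparableSpace X := by
  haveI : T2Space X := T2Space.of_injective_continuous hi hf
  -- compact sets are separable
  have hsep : ∀ K : Set X, IsCompact K → IsSeparable K := by
    intro K hK
    haveI : CompactSpace K := isCompact_iff_compactSpace.mp hK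
    have he : IsClosedEmbedding (fun x : K => f x) :=
      (hf.comp continuous_subtype_val).isClosedEmbedding (hi.comp Subtype.val_injective)
    haveI : SecondCountableTopology K := he.isEmbedding.secondCountableTopology
    have : IsSeparable (range (Subtype.val : K → X)) := isSeparable_range continuous_subtype_val
    rwa [Subtype.range_coe] at this
  by_cases hX : IsCompact (univ : Set X)
  · exact isSeparable_univ_iff.mp (hsep univ hX)
  · obtain ⟨𝒱, hsub, hc, hd⟩ := h {K | IsCompact K}
      (by
        intro K hK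
        letI := metrizableSpaceMetric Z
        have h1 : IsGδ (f '' K) := (IsCompact.image hK hf).isClosed.isGδ
        have h2 : K = f ⁻¹' (f '' K) := (preimage_image_eq K hi).symm
        rw [h2]
        exact h1.preimage hf)
      hX (fun K hK => ⟨K, hK, Subset.rfl⟩)
    have h3 : IsSeparable (⋃₀ 𝒱) := by
      rw [sUnion_eq_biUnion]
      obtain ⟨D, hD⟩ : ∃ D : Set X → Set X, ∀ K ∈ 𝒱, (D K).Countable ∧ K ⊆ closure (D K) := by
        choose D hD using fun K : Set X => show ∃ D : Set X, K ∈ 𝒱 → D.Countable ∧ K ⊆ closure D by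
          by_cases hK : K ∈ 𝒱
          · obtain ⟨D, hD, hKD⟩ := hsep K (hsub hK)
            exact ⟨D, fun _ => ⟨hD, hKD⟩⟩
          · exact ⟨∅, fun h => absurd h hK⟩
        exact ⟨D, hD⟩
      refine ⟨⋃ K ∈ 𝒱, D K, hc.biUnion fun K hK => (hD K hK).1, ?_⟩
      refine iUnion₂_subset fun K hK => (hD K hK).2.trans (closure_mono ?_)
      exact subset_biUnion_of_mem (u := D) hK
    have h4 : IsSeparable (univ : Set X) := by
      have := h3.closure
      rwa [hd.closure_eq] at this
    exact isSeparable_univ_iff.mp h4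

end Pool.Agent.Y444.WA
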