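import Pool.Agent.Y444.WA.B

set_option autoImplicit false

open Set Topology TopologicalSpace

namespace Pool.Agent.Y444.WA

universe u v w a b

/-- Finitely many linearly independent functionals take arbitrary values. -/
theorem exists_values {k : Type w} [Field k] {V : Type u} [AddCommGroup V] [Module k V]
    {J : Type v} (f : J → V →ₗ[k] k) (hf : LinearIndependent k f) (F : Finset J) (z : J → k) :
    ∃ v : V, ∀ j ∈ F, f j v = z j := by
  classical
  let T : V →ₗ[k] (F → k) := LinearMap.pi fun j => f j
  have hT : LinearMap.range T = ⊤ := by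
    by_contra hne
    obtain ⟨g, hg, hle⟩ := Submodule.exists_le_ker_of_lt_top _ (lt_top_iff_ne_top.mpr hne)
    apply hg
    have h1 : ∑ j : F, g (Pi.single j 1) • f j = 0 := by
      ext v
      have h2 : g (T v) = 0 := hle (LinearMap.mem_range_self T v)
      have h3 : T v = ∑ j : F, (f j v) • (Pi.single j (1 : k) : F → k) := by
        ext i
        simp [T, Finset.sum_apply, Pi.single_apply]
      rw [h3, map_sum] at h2
      simp only [map_smul, smul_eq_mul] at h2
      simp only [LinearMap.coe_sum, Finset.sum_apply, LinearMap.smul_apply, smul_eq_mul,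
        LinearMap.zero_apply]
      rw [← h2]
      exact Finset.sum_congr rfl fun i _ => mul_comm _ _
    have h4 : LinearIndependent k fun j : F => f j := hf.comp _ Subtype.val_injective
    have h5 := Fintype.linearIndependent_iff.mp h4 _ h1
    refine LinearMap.pi_ext' fun j => ?_
    ext
    simpa using h5 j
  have h6 : (fun j : F => z j) ∈ LinearMap.range T := by rw [hT]; trivial
  obtain ⟨v, hv⟩ := h6
  exact ⟨v, fun j hj => congrFun hv ⟨j, hj⟩⟩

/-- The weak topology of an arbitrary bilinear pairing over a second countable topological field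
has the selection property. -/
theorem PP_weakBilin {k : Type w} [Field k] [TopologicalSpace k] [IsTopologicalRing k]
    [SecondCountableTopology k] {V : Type u} [AddCommGroup V] [Module k V] {W : Type v}
    [AddCommGroup W] [Module k W] (B : V →ₗ[k] W →ₗ[k] k) : PP (WeakBilin B) := by
  classical
  let S : Submodule k (V →ₗ[k] k) := LinearMap.range B.flip
  let b := Module.Basis.ofVectorSpace k S
  let J := Module.Basis.ofVectorSpaceIndex k S
  let e : WeakBilin B → (J → k) := fun v j => ((b j : S) : V →ₗ[k] k) v
  have he1 : ∀ j, ∃ y : W, ∀ v : V, ((b j : S) : V →ₗ[k] k) v = B v y := by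
    intro j
    obtain ⟨y, hy⟩ := (b j).2
    exact ⟨y, fun v => by rw [← hy]; rfl⟩
  have he2 : ∀ y : W, ∃ (F : Finset J) (c : J → k), ∀ v : V, B v y = ∑ j ∈ F, c j * e v j := by
    intro y
    let s : S := ⟨B.flip y, LinearMap.mem_range_self _ _⟩
    refine ⟨(b.repr s).support, fun j => b.repr s j, fun v => ?_⟩
    have h1 : s = ∑ j ∈ (b.repr s).support, b.repr s j • b j := by
      conv_lhs => rw [← b.linearCombination_repr s]
      rfl
    have h2 : (s : V →ₗ[k] k) v = (∑ j ∈ (b.repr s).support, b.repr s j • ((b j : S) : V →ₗ[k] k)) v := by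
      conv_lhs => rw [h1]
      simp
    have h3 : (s : V →ₗ[k] k) v = B v y := rfl
    rw [← h3, h2]
    simp [e]
    rfl
  have hind : IsInducing e := by
    refine ⟨le_antisymm ?_ ?_⟩
    · refine continuous_iff_le_induced.mp (continuous_pi fun j => ?_)
      obtain ⟨y, hy⟩ := he1 j
      have : (fun v : WeakBilin B => e v j) = fun v => B v y := funext fun v => hy v
      rw [this]
      exact WeakBilin.eval_continuous B y
    · have key : ∀ (e' : V → J → k), (∀ y : W, ∃ (F : Finset J) (c : J → k), ∀ v : V,
          B v y = ∑ j ∈ F, c j * e' v j) → TopologicalSpace.induced e' Pi.topologicalSpace ≤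
          TopologicalSpace.induced (fun (x : V) (y : W) => B x y) Pi.topologicalSpace := by
        intro e' he'
        let t : TopologicalSpace V := TopologicalSpace.induced e' Pi.topologicalSpace
        have hc : Continuous (fun (x : V) (y : W) => B x y) := by
          refine continuous_pi fun y => ?_
          obtain ⟨F, c, h⟩ := he' y
          have h' : (fun x : V => B x y) = fun x => ∑ j ∈ F, c j * e' x j := funext h
          rw [h']
          refine continuous_finsetSum _ fun j _ => continuous_const.mul ?_
          exact (continuous_apply j).comp (continuous_induced_dom (f := e'))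
        exact continuous_iff_le_induced.mp hc
      exact key e he2
  have hdense : DenseRange e := by
    rw [DenseRange, dense_iff_inter_open]
    intro O hO ⟨z, hz⟩
    obtain ⟨F, w, hw, hsub⟩ := isOpen_pi_iff.mp hO z hz
    obtain ⟨v, hv⟩ := exists_values (fun j : J => ((b j : S) : V →ₗ[k] k))
      (b.linearIndependent.map' S.subtype (Submodule.ker_subtype S)) F z
    refine ⟨e v, hsub ?_, v, rfl⟩
    intro j hj
    have : e v j = z j := hv j (by exact_mod_cast hj)
    rw [this]
    exact (hw j (by exact_mod_cast hj)).2
  refine PP_of_denseRange (Z := fun _ : J => k) (fun _ => ?_) e hind hdense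
  obtain ⟨ℬ, hc, hne, hbas⟩ := exists_countable_basis k
  refine ⟨ℬ, hc, fun U hU => ⟨hbas.isOpen hU, ?_⟩, fun U hU ⟨x, hx⟩ => ?_⟩
  · rw [nonempty_iff_ne_empty]
    rintro rfl
    exact hne hU
  · obtain ⟨U', hU', -, hsub⟩ := hbas.exists_subset_of_mem_open hx hU
    exact ⟨U', hU', hsub⟩

end Pool.Agent.Y444.WA
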