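import Pool.Agent.Y444.WA.C

set_option autoImplicit false

open Set Topology TopologicalSpace Cardinal

namespace Pool.Agent.Y444.WA

universe u v w a b

section

variable {k : Type w} [Field k] [TopologicalSpace k] [IsTopologicalRing k] [T2Space k]
    [SecondCountableTopology k]

/-- The space `V` with the topology generated by all linear functionals. -/
abbrev Alg (k : Type w) [Field k] [TopologicalSpace k] (V : Type u) [AddCommGroup V]
    [Module k V] : Type u := WeakBilin (Module.Dual.eval k V)

theorem continuous_functional {V : Type u} [AddCommGroup V] [Module k V] (φ : V →ₗ[k] k) :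
    Continuous (fun x : Alg k V => φ x) :=
  WeakBilin.eval_continuous (Module.Dual.eval k V) φ

theorem continuous_linear {V : Type u} [AddCommGroup V] [Module k V] {V' : Type v}
    [AddCommGroup V'] [Module k V'] (T : V →ₗ[k] V') :
    @Continuous (Alg k V) (Alg k V') _ _ T := by
  refine WeakBilin.continuous_of_continuous_eval _ fun φ => ?_
  exact continuous_functional (φ.comp T)

theorem finsupp_not_separable (Ω : Type u) [Uncountable Ω] :
    ¬ SeparableSpace (Alg k (Ω →₀ k)) := by
  intro h
  obtain ⟨D, hDc, hD⟩ := exists_countable_dense (Alg k (Ω →₀ k))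
  let D' : Set (Ω →₀ k) := D
  have hc : (⋃ v ∈ D', (v.support : Set Ω)).Countable :=
    Set.Countable.biUnion hDc fun v _ => v.support.countable_toSet
  obtain ⟨s, hs⟩ : ∃ s, s ∉ ⋃ v ∈ D', (v.support : Set Ω) := by
    by_contra hcon
    push Not at hcon
    exact Set.not_countable_univ (hc.mono fun i _ => hcon i)
  have hcl : IsClosed {x : Alg k (Ω →₀ k) | (Finsupp.lapply s : (Ω →₀ k) →ₗ[k] k) x = 0} :=
    isClosed_singleton.preimage (continuous_functional (Finsupp.lapply s : (Ω →₀ k) →ₗ[k] k))
  have hsub : D ⊆ {x : Alg k (Ω →₀ k) | (Finsupp.lapply s : (Ω →₀ k) →ₗ[k] k) x = 0} := by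
    intro v hv
    have h1 : s ∉ ((v : Ω →₀ k)).support := by
      intro h2
      apply hs
      simp only [mem_iUnion]
      exact ⟨v, hv, by exact_mod_cast h2⟩
    exact Finsupp.notMem_support_iff.mp h1
  have h3 := hcl.closure_subset_iff.mpr hsub
  rw [hD.closure_eq] at h3
  have h4 : (Finsupp.lapply s : (Ω →₀ k) →ₗ[k] k) (Finsupp.single s 1) = 0 :=
    h3 (mem_univ (Finsupp.single s 1 : Ω →₀ k))
  simp at h4

theorem exists_between_finset {Ω : Type u} (i : Ω → ℝ) (x : ℝ) (T : Finset Ω)
    (h : ∀ s ∈ T, x < i s) : ∃ q : ℚ, x < q ∧ ∀ s ∈ T, (q : ℝ) < i s := by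
  classical
  induction T using Finset.induction_on with
  | empty =>
    obtain ⟨q, hq⟩ := exists_rat_gt x
    exact ⟨q, hq, fun s hs => absurd hs (Finset.notMem_empty _)⟩
  | insert a T ha ih =>
    obtain ⟨q, hq, hq'⟩ := ih fun s hs => h s (Finset.mem_insert_of_mem hs)
    obtain ⟨q', h1, h2⟩ := exists_rat_btwn (show x < min (q : ℝ) (i a) from
      lt_min hq (h a (Finset.mem_insert_self _ _)))
    refine ⟨q', h1, fun s hs => ?_⟩
    rcases Finset.mem_insert.mp hs with rfl | hs
    · exact h2.trans_le (min_le_right _ _)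
    · exact (h2.trans_le (min_le_left _ _)).trans (hq' s hs)

theorem finsupp_injection {Ω : Type u} (i : Ω → ℝ) (hi : Function.Injective i) :
    ∃ f : (Ω →₀ k) →ₗ[k] (ℚ → k), Function.Injective f ∧
      Continuous (fun x : Alg k (Ω →₀ k) => f x) := by
  classical
  let φ : ℚ → (Ω →₀ k) →ₗ[k] k := fun q =>
    Finsupp.linearCombination k fun s => if i s < q then (1 : k) else 0
  refine ⟨LinearMap.pi φ, ?_, continuous_pi fun q => continuous_functional (φ q)⟩
  rw [← LinearMap.ker_eq_bot, LinearMap.ker_eq_bot']
  intro v hv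
  by_contra hne
  have hsupp : v.support.Nonempty := Finsupp.support_nonempty_iff.mpr hne
  obtain ⟨s, hs, hmin⟩ := Finset.exists_min_image v.support i hsupp
  obtain ⟨q, hq1, hq2⟩ := exists_between_finset i (i s) (v.support.erase s) (by
    intro t ht
    have h1 := hmin t (Finset.mem_of_mem_erase ht)
    refine lt_of_le_of_ne h1 fun h => ?_
    exact (Finset.ne_of_mem_erase ht) (hi h).symm)
  have h2 : φ q v = 0 := congrFun hv q
  have h3 : φ q v = v s := by
    simp only [φ, Finsupp.linearCombination_apply, Finsupp.sum, smul_eq_mul]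
    rw [← Finset.add_sum_erase _ _ hs]
    rw [if_pos hq1, mul_one, Finset.sum_eq_zero, add_zero]
    intro t ht
    rw [if_neg (not_lt.mpr (hq2 t ht).le), mul_zero]
  rw [h3] at h2
  exact (Finsupp.mem_support_iff.mp hs) h2

theorem finsupp_not_weaklyAlster {Ω : Type u} [Uncountable Ω] (i : Ω → ℝ)
    (hi : Function.Injective i) : ¬ WeaklyAlster (Alg k (Ω →₀ k)) := by
  intro h
  obtain ⟨f, hf, hc⟩ := finsupp_injection (k := k) i hi
  have : T3Space k := inferInstance
  have : MetrizableSpace k := metrizableSpace_of_t3_secondCountable k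
  exact finsupp_not_separable (k := k) Ω (separable_of_weaklyAlster h (fun x => f x) hc hf)

/-- Uncountable dimension: not weakly Alster. -/
theorem alg_not_weaklyAlster {V : Type u} [AddCommGroup V] [Module k V]
    (h : ℵ₀ < Module.rank k V) : ¬ WeaklyAlster (Alg k V) := by
  intro hA
  let b := Module.Basis.ofVectorSpace k V
  let ι := Module.Basis.ofVectorSpaceIndex k V
  have hι : ℵ₁ ≤ #ι := by
    have h1 : ℵ₀ < #ι := by rw [b.mk_eq_rank'']; exact h
    rw [← Order.succ_le_iff, ← Cardinal.aleph_zero, Cardinal.succ_aleph] at h1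
    simpa using h1
  let Ω : Type := (ℵ₁ : Cardinal.{0}).out
  have hΩ : #Ω = ℵ₁ := Cardinal.mk_out _
  have : Uncountable Ω := by
    rw [← Cardinal.aleph0_lt_mk_iff, hΩ]
    exact Cardinal.aleph0_lt_aleph_one
  obtain ⟨i2⟩ : Nonempty (Ω ↪ ℝ) := by
    rw [← Cardinal.le_def, hΩ, Cardinal.mk_real]
    exact Cardinal.aleph_one_le_continuum
  obtain ⟨i1⟩ : Nonempty (Ω ↪ ι) := by
    rw [← Cardinal.lift_mk_le', hΩ]
    simpa using hι
  let T : V →ₗ[k] (Ω →₀ k) := (Finsupp.lcomapDomain i1 i1.injective) ∘ₗ b.repr.toLinearMap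
  have hT : Function.Surjective T := by
    intro y
    refine ⟨b.repr.symm (Finsupp.mapDomain i1 y), ?_⟩
    ext s
    have h1 : T (b.repr.symm (Finsupp.mapDomain i1 y)) s = b.repr (b.repr.symm
      (Finsupp.mapDomain i1 y)) (i1 s) := rfl
    rw [h1, LinearEquiv.apply_symm_apply, Finsupp.mapDomain_apply i1.injective]
  exact finsupp_not_weaklyAlster (k := k) i2 i2.injective
    (hA.image (fun x => T x) (continuous_linear T) hT)

/-- Countable dimension: separable. -/
theorem alg_separable {V : Type u} [AddCommGroup V] [Module k V]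
    (h : Module.rank k V ≤ ℵ₀) : SeparableSpace (Alg k V) := by
  let b := Module.Basis.ofVectorSpace k V
  let ι := Module.Basis.ofVectorSpaceIndex k V
  have hι : Countable ι := by
    rw [← Cardinal.mk_le_aleph0_iff, b.mk_eq_rank'']
    exact h
  let g : ∀ F : Finset ι, (F → k) → Alg k V := fun F c => (∑ i : F, c i • b i : V)
  have hg : ∀ F, Continuous (g F) := by
    intro F
    refine WeakBilin.continuous_of_continuous_eval _ fun φ => ?_
    have : (fun c : F → k => Module.Dual.eval k V (g F c) φ) = fun c => ∑ i : F, c i * φ (b i) := by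
      funext c
      simp [g, Module.Dual.eval_apply, map_sum]
    rw [this]
    exact continuous_finsetSum _ fun i _ => (continuous_apply i).mul continuous_const
  have h1 : IsSeparable (⋃ F : Finset ι, range (g F)) := by
    exact IsSeparable.iUnion fun F => isSeparable_range (hg F)
  have h2 : (⋃ F : Finset ι, range (g F)) = Set.univ := by
    rw [eq_univ_iff_forall]
    intro v
    let v' : V := v
    refine mem_iUnion.mpr ⟨(b.repr v').support, fun i => b.repr v' i, ?_⟩
    have h3 : v' = ∑ j ∈ (b.repr v').support, b.repr v' j • b j := by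
      conv_lhs => rw [← b.linearCombination_repr v']
      rfl
    have h4 : (∑ i : (b.repr v').support, b.repr v' i • b i : V) = v' := by
      conv_rhs => rw [h3]
      exact Finset.sum_coe_sort (b.repr v').support fun i => b.repr v' i • b i
    exact h4
  rw [h2] at h1
  exact isSeparable_univ_iff.mp h1

theorem alg_weaklyAlster_iff {V : Type u} [AddCommGroup V] [Module k V] :
    WeaklyAlster (Alg k V) ↔ Module.rank k V ≤ ℵ₀ := by
  constructor
  · intro h
    by_contra hcon
    exact alg_not_weaklyAlster (not_le.mp hcon) h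
  · intro h
    have := alg_separable (k := k) h
    exact weaklyAlster_of_separable

end

end Pool.Agent.Y444.WA
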