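import Pool.Agent.Y444.WA.D

set_option autoImplicit false

open Set Topology TopologicalSpace

namespace Pool.Agent.Y444.WA

universe u v w a b

/-- Every real topological vector space is productively weakly Lindelöf in its weak topology. -/
theorem productively_weakSpace (X : Type u) [AddCommGroup X] [Module ℝ X] [TopologicalSpace X] :
    ProductivelyWeaklyLindelof.{u, v} (WeakSpace ℝ X) :=
  productively_of_PP (PP_weakBilin (topDualPairing ℝ X).flip)

/-- A locally convex space whose points are separated by countably many continuous functionals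
is weakly Alster in its weak topology iff it is separable. -/
theorem weakSpace_weaklyAlster_iff (X : Type u) [AddCommGroup X] [Module ℝ X]
    [TopologicalSpace X] [IsTopologicalAddGroup X] [ContinuousSMul ℝ X] [LocallyConvexSpace ℝ X]
    (f : ℕ → X →L[ℝ] ℝ) (hf : ∀ x, (∀ n, f n x = 0) → x = 0) :
    WeaklyAlster (WeakSpace ℝ X) ↔ SeparableSpace X := by
  constructor
  · intro h
    have h1 : SeparableSpace (WeakSpace ℝ X) := by
      refine separable_of_weaklyAlster (Z := ℕ → ℝ) h (fun x n => f n ((toWeakSpace ℝ X).symm x))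
        ?_ ?_
      · exact continuous_pi fun n => WeakBilin.eval_continuous (topDualPairing ℝ X).flip (f n)
      · intro x y hxy
        have h2 : (toWeakSpace ℝ X).symm x - (toWeakSpace ℝ X).symm y = 0 := by
          apply hf
          intro n
          rw [map_sub]
          exact sub_eq_zero.mpr (congrFun hxy n)
        exact (toWeakSpace ℝ X).symm.injective (sub_eq_zero.mp h2)
    obtain ⟨D, hDc, hD⟩ := exists_countable_dense (WeakSpace ℝ X)
    let D' : Set X := (toWeakSpace ℝ X) ⁻¹' D
    let S : Submodule ℝ X := Submodule.span ℝ D'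
    have h3 : (toWeakSpace ℝ X) '' (closure (S : Set X)) = Set.univ := by
      rw [S.convex.toWeakSpace_closure ℝ]
      rw [eq_univ_iff_forall]
      intro x
      refine closure_mono ?_ (hD x)
      intro y hy
      refine ⟨(toWeakSpace ℝ X).symm y, Submodule.subset_span ?_, by simp⟩
      show (toWeakSpace ℝ X) ((toWeakSpace ℝ X).symm y) ∈ D
      simpa using hy
    have h4 : closure (S : Set X) = Set.univ := by
      rw [eq_univ_iff_forall]
      intro x
      obtain ⟨y, hy, hxy⟩ : (toWeakSpace ℝ X) x ∈ (toWeakSpace ℝ X) '' (closure (S : Set X)) := by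
        rw [h3]; trivial
      rwa [(toWeakSpace ℝ X).injective hxy] at hy
    have h5 : IsSeparable D' := by
      refine ((hDc.preimage (toWeakSpace ℝ X).injective)).isSeparable
    have h6 : IsSeparable (S : Set X) := h5.span
    have h7 := h6.closure
    rw [h4] at h7
    exact isSeparable_univ_iff.mp h7
  · intro h
    have h1 : SeparableSpace (WeakSpace ℝ X) := by
      have hs : Function.Surjective (toWeakSpaceCLM ℝ X) := toWeakSpaceCLM_bijective.2
      exact hs.denseRange.separableSpace (toWeakSpaceCLM ℝ X).continuous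
    exact weaklyAlster_of_separable

/-- The Banach space `ℓ^∞`. -/
abbrev EllInf : Type := lp (fun _ : ℕ => ℝ) ⊤

theorem ellInf_not_separable : ¬ SeparableSpace EllInf := by
  classical
  intro h
  obtain ⟨d, hd⟩ := exists_dense_seq EllInf
  let x : Set ℕ → EllInf := fun A => ⟨fun n => if n ∈ A then (1 : ℝ) else 0, by
    refine memℓp_infty ⟨1, ?_⟩
    rintro _ ⟨n, rfl⟩
    simp only
    split_ifs <;> simp⟩
  have hx : ∀ A B : Set ℕ, ‖x A - x B‖ < 1 → A ⊆ B := by
    intro A B h n hn
    by_contra hB
    have h1 := lp.norm_apply_le_norm (p := ⊤) (by simp) (x A - x B) n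
    have h2 : (x A - x B) n = 1 := by
      simp [x, hn, hB]
    rw [h2] at h1
    simp at h1
    linarith
  have h1 : ∀ A : Set ℕ, ∃ n, ‖x A - d n‖ < 1 / 2 := by
    intro A
    obtain ⟨y, hy, n, rfl⟩ := hd.inter_open_nonempty (Metric.ball (x A) (1 / 2))
      Metric.isOpen_ball ⟨x A, Metric.mem_ball_self (by norm_num)⟩
    refine ⟨n, ?_⟩
    rw [Metric.mem_ball, dist_eq_norm] at hy
    rwa [norm_sub_rev]
  choose g hg using h1
  refine Function.cantor_injective g fun A B hAB => ?_
  have h2 : ‖x A - x B‖ < 1 := by
    have h3 : x A - x B = (x A - d (g A)) - (x B - d (g B)) := by rw [hAB]; abel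
    rw [h3]
    calc _ ≤ ‖x A - d (g A)‖ + ‖x B - d (g B)‖ := norm_sub_le _ _
      _ < 1 / 2 + 1 / 2 := add_lt_add (hg A) (hg B)
      _ = 1 := by norm_num
  have h4 : ‖x B - x A‖ < 1 := by rwa [norm_sub_rev]
  exact Subset.antisymm (hx A B h2) (hx B A h4)

theorem ellInf_not_weaklyAlster : ¬ WeaklyAlster (WeakSpace ℝ EllInf) := by
  intro h
  refine ellInf_not_separable ((weakSpace_weaklyAlster_iff EllInf
    (fun n => (lp.evalCLM ℝ (fun _ : ℕ => ℝ) ⊤ n)) ?_).mp h)
  intro x hx
  ext n
  exact hx n

/-- The weak topology of a normed space is Tychonoff. -/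
theorem t35_weakSpace (X : Type u) [NormedAddCommGroup X] [NormedSpace ℝ X] :
    T35Space (WeakSpace ℝ X) := by
  have h : Function.Injective (topDualPairing ℝ X).flip := by
    intro x y hxy
    by_contra hne
    obtain ⟨f, hf⟩ := SeparatingDual.exists_separating_of_ne (R := ℝ) hne
    apply hf
    exact LinearMap.congr_fun hxy f
  exact (WeakBilin.isEmbedding h).t35Space

end Pool.Agent.Y444.WA
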